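import Pool.Agent.H40.ISH.Stmts

/-!
Project ISH: module PLQ.
-/

set_option linter.unusedVariables false

namespace Pool.ISH

open scoped Classical

theorem plq_ev (i j : Fin 3) : ev i j = if j = i then 1 else 0 := by
  unfold ev
  rw [Pi.single_apply]

theorem plq_hi (b : Bond) (j : Fin 3) : hi b j = b.1 j + if j = b.2 then 1 else 0 := by
  unfold hi
  rw [Pi.add_apply, plq_ev]

theorem plq_nr_iff (b c : Bond) : Tch b c ↔ ∀ j,
    |b.1 j - c.1 j| ≤ 1 ∧ |b.1 j - (c.1 j + if j = c.2 then 1 else 0)| ≤ 1 ∧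
    |(b.1 j + if j = b.2 then 1 else 0) - c.1 j| ≤ 1 ∧
    |(b.1 j + if j = b.2 then 1 else 0) - (c.1 j + if j = c.2 then 1 else 0)| ≤ 1 := by
  unfold Tch Nr1 lo
  simp only [plq_hi]
  constructor
  · rintro ⟨h1, h2, h3, h4⟩ j
    exact ⟨h1 j, h2 j, h3 j, h4 j⟩
  · intro h
    exact ⟨fun j => (h j).1, fun j => (h j).2.1, fun j => (h j).2.2.1, fun j => (h j).2.2.2⟩

theorem plq_int (a b : ℤ) (h : |(a : ℝ) - b| < 2) : |a - b| ≤ 1 := by
  have h1 : |a - b| < 2 := by exact_mod_cast h
  omega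

theorem plq : PLQStmt := by
  intro b c
  rw [plq_nr_iff]
  constructor
  · rintro ⟨y, ⟨hb1, hb2⟩, ⟨hc1, hc2⟩⟩ j
    have hb : (j = b.2 → y j = (b.1 j : ℝ) + 1 / 2) := fun h => by rw [h]; exact hb1
    have hc : (j = c.2 → y j = (c.1 j : ℝ) + 1 / 2) := fun h => by rw [h]; exact hc1
    by_cases h1 : j = b.2
    · by_cases h2 : j = c.2
      · have e1 := hb h1
        have e2 := hc h2
        have e3 : (b.1 j : ℝ) = c.1 j := by linarith
        have e4 : b.1 j = c.1 j := by exact_mod_cast e3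
        rw [if_pos h1, if_pos h2, e4]
        refine ⟨?_, ?_, ?_, ?_⟩ <;> simp
      · have e1 := hb h1
        have e2 := abs_le.1 (hc2 j h2)
        have e3 : (b.1 j : ℝ) ≤ c.1 j := by linarith [e2.2]
        have e4 : (c.1 j : ℝ) ≤ b.1 j + 1 := by linarith [e2.1]
        have e5 : b.1 j ≤ c.1 j := by exact_mod_cast e3
        have e6 : c.1 j ≤ b.1 j + 1 := by exact_mod_cast e4
        rw [if_pos h1, if_neg h2]
        simp only [abs_le]
        omega
    · by_cases h2 : j = c.2
      · have e1 := hc h2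
        have e2 := abs_le.1 (hb2 j h1)
        have e3 : (c.1 j : ℝ) ≤ b.1 j := by linarith [e2.2]
        have e4 : (b.1 j : ℝ) ≤ c.1 j + 1 := by linarith [e2.1]
        have e5 : c.1 j ≤ b.1 j := by exact_mod_cast e3
        have e6 : b.1 j ≤ c.1 j + 1 := by exact_mod_cast e4
        rw [if_neg h1, if_pos h2]
        simp only [abs_le]
        omega
      · have e1 := abs_le.1 (hb2 j h1)
        have e2 := abs_le.1 (hc2 j h2)
        have e3 : (c.1 j : ℝ) ≤ b.1 j + 1 := by linarith [e1.1, e1.2, e2.1, e2.2]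
        have e4 : (b.1 j : ℝ) ≤ c.1 j + 1 := by linarith [e1.1, e1.2, e2.1, e2.2]
        have e5 : c.1 j ≤ b.1 j + 1 := by exact_mod_cast e3
        have e6 : b.1 j ≤ c.1 j + 1 := by exact_mod_cast e4
        rw [if_neg h1, if_neg h2]
        simp only [abs_le]
        omega
  · intro h
    refine ⟨WithLp.toLp 2 (fun j => if j = b.2 then (b.1 j : ℝ) + 1 / 2 else
      if j = c.2 then (c.1 j : ℝ) + 1 / 2 else ((b.1 j : ℝ) + c.1 j) / 2), ⟨?_, ?_⟩, ⟨?_, ?_⟩⟩
    · show (if b.2 = b.2 then _ else _) = _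
      rw [if_pos rfl]
    · intro j hj
      show |(if j = b.2 then _ else _) - (b.1 j : ℝ)| ≤ _
      rw [if_neg hj]
      obtain ⟨h1, h2, h3, h4⟩ := h j
      rw [if_neg hj] at h3 h4
      by_cases h5 : j = c.2
      · rw [if_pos h5] at h2 h4 ⊢
        simp only [abs_le] at h1 h2 h3 h4
        have e1 : c.1 j ≤ b.1 j := by omega
        have e2 : b.1 j ≤ c.1 j + 1 := by omega
        have e3 : (c.1 j : ℝ) ≤ b.1 j := by exact_mod_cast e1
        have e4 : (b.1 j : ℝ) ≤ c.1 j + 1 := by exact_mod_cast e2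
        rw [abs_le]
        constructor <;> linarith
      · rw [if_neg h5]
        simp only [abs_le] at h1
        have e1 : (-1 : ℝ) ≤ (b.1 j : ℝ) - c.1 j := by exact_mod_cast h1.1
        have e2 : (b.1 j : ℝ) - c.1 j ≤ 1 := by exact_mod_cast h1.2
        rw [abs_le]
        constructor <;> linarith
    · show (if c.2 = b.2 then _ else _) = _
      obtain ⟨h1, h2, h3, h4⟩ := h c.2
      by_cases h5 : c.2 = b.2
      · rw [if_pos h5] at h3 h4 ⊢
        rw [if_pos rfl] at h2 h4
        simp only [abs_le] at h1 h2 h3 h4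
        have e1 : b.1 c.2 = c.1 c.2 := by omega
        rw [e1]
      · rw [if_neg h5, if_pos rfl]
    · intro j hj
      show |(if j = b.2 then _ else _) - (c.1 j : ℝ)| ≤ _
      obtain ⟨h1, h2, h3, h4⟩ := h j
      rw [if_neg hj] at h2 h4
      by_cases h5 : j = b.2
      · rw [if_pos h5] at h3 h4 ⊢
        simp only [abs_le] at h1 h2 h3 h4
        have e1 : b.1 j ≤ c.1 j := by omega
        have e2 : c.1 j ≤ b.1 j + 1 := by omega
        have e3 : (b.1 j : ℝ) ≤ c.1 j := by exact_mod_cast e1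
        have e4 : (c.1 j : ℝ) ≤ b.1 j + 1 := by exact_mod_cast e2
        rw [abs_le]
        constructor <;> linarith
      · rw [if_neg h5, if_neg hj]
        simp only [abs_le] at h1
        have e1 : (-1 : ℝ) ≤ (b.1 j : ℝ) - c.1 j := by exact_mod_cast h1.1
        have e2 : (b.1 j : ℝ) - c.1 j ≤ 1 := by exact_mod_cast h1.2
        rw [abs_le]
        constructor <;> linarith

end Pool.ISH
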