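import Pool.Agent.H40.ISH.Stmts

/-!
Project ISH: module TOP.
-/

set_option linter.unusedVariables false

namespace Pool.ISH

open Topology Set
open scoped Classical

theorem top_finite (N : ℕ) : {b : Bond | lo b ∈ Vbar N}.Finite := by
  refine ((Qb 0 (N + 1)) ×ˢ (Finset.univ : Finset (Fin 3))).finite_toSet.subset ?_
  rintro ⟨x, i⟩ hx
  have hx' : x ∈ Vbar N := hx
  simp only [Finset.coe_product, Finset.coe_univ, Set.mem_prod, Set.mem_univ, and_true,
    Finset.mem_coe]
  rw [mem_Qb]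
  intro j
  have key : ∀ y : Site, y ∈ Vb N → (∀ j, |x j - y j| ≤ 1) → |x j - (0 : Site) j| ≤ ((N + 1 : ℕ) : ℤ) := by
    intro y hy h
    have h1 := mem_Vb.1 hy j
    have h2 := h j
    rw [abs_le] at h1 h2
    rw [Pi.zero_apply, abs_le]
    push_cast
    omega
  rcases hx' with h | ⟨i, h | h⟩
  · exact key x h (fun j => by simp)
  · refine key _ h (fun j => ?_)
    have := ev_le i j
    rw [Pi.add_apply, abs_le]
    omega
  · refine key _ h (fun j => ?_)
    have := ev_le i j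
    rw [Pi.sub_apply, abs_le]
    omega

theorem top_spin (N : ℕ) (A : Finset Site) (x : Site) : spin N A x = 1 ∨ spin N A x = -1 := by
  unfold spin
  split_ifs <;> simp

theorem top_spin_iff (N : ℕ) (A : Finset Site) (x : Site) : spin N A x = 1 ↔ x ∈ Pl N A := by
  unfold spin Pl
  simp only [Set.mem_setOf_eq]
  by_cases h1 : x ∈ Vb N
  · by_cases h2 : x ∈ A
    · simp [h1, h2]
    · simp [h1, h2]
  · by_cases h2 : x 2 ≤ 0
    · simp [h1, h2]
    · simp [h1, h2]

theorem top_contours (N : ℕ) (A : Finset Site) : contours N A =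
    ⋃ b ∈ {b : Bond | b ∈ bd (Pl N A) ∧ lo b ∈ Vbar N ∧ hi b ∈ Vbar N}, plaq b := by
  ext y
  simp only [contours, Set.mem_setOf_eq, Set.mem_iUnion, exists_prop]
  have key : ∀ b : Bond, spin N A (lo b) ≠ spin N A (hi b) ↔ b ∈ bd (Pl N A) := by
    intro b
    rw [mem_bd, ← top_spin_iff, ← top_spin_iff]
    rcases top_spin N A (lo b) with h | h <;> rcases top_spin N A (hi b) with h' | h' <;>
      rw [h, h'] <;> norm_num
  constructor
  · rintro ⟨b, h1, h2, h3, h4⟩
    exact ⟨b, ⟨(key b).1 h3, h1, h2⟩, h4⟩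
  · rintro ⟨b, ⟨h1, h2, h3⟩, h4⟩
    exact ⟨b, h2, h3, (key b).2 h1, h4⟩

theorem top_rt_lo (N : ℕ) : lo (rt N) = ![(N : ℤ) + 1, 0, 0] := rfl

theorem top_rt_hi (N : ℕ) : hi (rt N) = ![(N : ℤ) + 1, 0, 1] := by
  funext j
  unfold hi rt ev
  fin_cases j <;> simp

theorem top_rt (N : ℕ) (A : Finset Site) (hN : 1 ≤ N) :
    rt N ∈ {b : Bond | b ∈ bd (Pl N A) ∧ lo b ∈ Vbar N ∧ hi b ∈ Vbar N} := by
  have hl : lo (rt N) ∉ Vb N := by
    rw [top_rt_lo, mem_Vb]
    intro h
    have := h 0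
    simp only [Matrix.cons_val_zero] at this
    rw [abs_le] at this
    omega
  have hh : hi (rt N) ∉ Vb N := by
    rw [top_rt_hi, mem_Vb]
    intro h
    have := h 0
    simp only [Matrix.cons_val_zero] at this
    rw [abs_le] at this
    omega
  refine ⟨?_, Or.inr ⟨0, Or.inr ?_⟩, Or.inr ⟨0, Or.inr ?_⟩⟩
  · rw [mem_bd]
    intro h
    have h1 : lo (rt N) ∈ Pl N A := Or.inr ⟨hl, by rw [top_rt_lo]; simp⟩
    rcases h.1 h1 with h2 | h2
    · exact hh h2.1
    · have := h2.2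
      rw [top_rt_hi] at this
      simp at this
  · rw [top_rt_lo, mem_Vb]
    intro i
    rw [Pi.sub_apply]
    fin_cases i <;> simp [ev]
  · rw [top_rt_hi, mem_Vb]
    intro i
    rw [Pi.sub_apply]
    fin_cases i <;> simp [ev]
    omega

theorem top_p0 (N : ℕ) : p0 N ∈ plaq (rt N) := by
  refine ⟨?_, fun j hj => ?_⟩
  · show p0 N 2 = ((rt N).1 2 : ℝ) + 1 / 2
    unfold p0 rt
    simp
  · unfold p0 rt
    have hj' : j ≠ 2 := hj
    fin_cases j
    · simp
    · simp
    · exact absurd rfl hj'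

theorem top (fgr : FGRStmt) (plq : PLQStmt) (plc : PLCStmt) : TOPStmt := by
  intro N A hN
  rw [fgr N A hN]
  set G : Set Bond := {b : Bond | b ∈ bd (Pl N A) ∧ lo b ∈ Vbar N ∧ hi b ∈ Vbar N} with hG
  have hF : contours N A = ⋃ b ∈ G, plaq b := top_contours N A
  have hrt : rt N ∈ G := top_rt N A hN
  have hGfin : G.Finite := (top_finite N).subset fun b hb => hb.2.1
  have hp : p0 N ∈ contours N A := by
    rw [hF]
    exact Set.mem_biUnion hrt (top_p0 N)
  have hsub : ∀ b ∈ G, plaq b ⊆ contours N A := by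
    intro b hb
    rw [hF]
    exact Set.subset_biUnion_of_mem (u := fun b => plaq b) hb
  have hR : ∀ b, Rch G (rt N) b → b ∈ G := fun b hb => Rch.mem hb hrt
  -- the union of the class is contained in the component
  have h1 : ∀ b, Rch G (rt N) b → plaq b ⊆ Gamma N A := by
    intro b hb
    induction hb with
    | refl => exact (plc.1 (rt N)).2.subset_connectedComponentIn (top_p0 N) (hsub _ hrt)
    | tail hb hbc ih =>
      rename_i b c
      obtain ⟨z, hz1, hz2⟩ := (plq b c).2 hbc.1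
      have h2 := (plc.1 c).2.subset_connectedComponentIn hz2 (hsub c hbc.2)
      have h3 : z ∈ connectedComponentIn (contours N A) (p0 N) := ih hz1
      rw [← connectedComponentIn_eq h3] at h2
      exact h2
  apply Set.Subset.antisymm
  · intro y hy
    by_contra hcon
    have hU : IsClosed (⋃ b ∈ {b | Rch G (rt N) b}, plaq b) :=
      (hGfin.subset fun b hb => hR b hb).isClosed_biUnion fun b _ => (plc.1 b).1.isClosed
    have hV : IsClosed (⋃ b ∈ {b | b ∈ G ∧ ¬ Rch G (rt N) b}, plaq b) :=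
      (hGfin.subset fun b hb => hb.1).isClosed_biUnion fun b _ => (plc.1 b).1.isClosed
    have hpre : IsPreconnected (Gamma N A) := isPreconnected_connectedComponentIn
    have hGa : Gamma N A ⊆ contours N A := connectedComponentIn_subset _ _
    have hcov : Gamma N A ⊆ (⋃ b ∈ {b | Rch G (rt N) b}, plaq b) ∪
        ⋃ b ∈ {b | b ∈ G ∧ ¬ Rch G (rt N) b}, plaq b := by
      intro z hz
      have hz' := hGa hz
      rw [hF] at hz'
      obtain ⟨b, hb, hzb⟩ := Set.mem_iUnion₂.1 hz'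
      by_cases h : Rch G (rt N) b
      · exact Or.inl (Set.mem_biUnion (x := b) h hzb)
      · exact Or.inr (Set.mem_biUnion (x := b) ⟨hb, h⟩ hzb)
    have hn1 : (Gamma N A ∩ ⋃ b ∈ {b | Rch G (rt N) b}, plaq b).Nonempty :=
      ⟨p0 N, mem_connectedComponentIn hp, Set.mem_biUnion (x := rt N)
        (Relation.ReflTransGen.refl) (top_p0 N)⟩
    have hn2 : (Gamma N A ∩ ⋃ b ∈ {b | b ∈ G ∧ ¬ Rch G (rt N) b}, plaq b).Nonempty :=
      ⟨y, hy, (hcov hy).resolve_left hcon⟩
    obtain ⟨z, -, hz1, hz2⟩ := isPreconnected_closed_iff.1 hpre _ _ hU hV hcov hn1 hn2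
    obtain ⟨b, hb, hzb⟩ := Set.mem_iUnion₂.1 hz1
    obtain ⟨c, hc, hzc⟩ := Set.mem_iUnion₂.1 hz2
    exact hc.2 (Relation.ReflTransGen.tail hb ⟨(plq b c).1 ⟨z, hzb, hzc⟩, hc.1⟩)
  · intro y hy
    obtain ⟨b, hb, hyb⟩ := Set.mem_iUnion₂.1 hy
    exact h1 b hb hyb

end Pool.ISH
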